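import Mathlib
import Pool.Agent.Helper118.Width.Main

set_option autoImplicit false

namespace Pool.Agent.Results.MP_df6699_an.Disproof

open Finset

/-- The region `S_{ρ,K} = {x + i y : x > 0, |y| < K x^{1-ρ/2}}`. -/
def region (ρ K : ℝ) : Set ℂ := {z | 0 < z.re ∧ |z.im| < K * z.re ^ (1 - ρ / 2)}

/-- The `n`-th partial sum `S_n(z) = ∑_{k=0}^n a_k z^k`. -/
noncomputable def partialSum (a : ℕ → ℂ) (n : ℕ) (z : ℂ) : ℂ := ∑ k ∈ range (n + 1), a k * z ^ k

/-- The power series `∑ a_k z^k` is entire: it converges at every `z`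
(infinite radius of convergence). -/
def IsEntire (a : ℕ → ℂ) : Prop := ∀ z : ℂ, Summable (fun k => a k * z ^ k)

/-- `M(r, f) = max_{|z| = r} |f(z)|` for `f(z) = ∑ a_k z^k`. -/
noncomputable def maxModulus (a : ℕ → ℂ) (r : ℝ) : ℝ :=
  sSup ((fun z : ℂ => ‖∑' k, a k * z ^ k‖) '' Metric.sphere 0 r)

/-- The order `limsup_{r → ∞} log log M(r, f) / log r`. -/
noncomputable def order (a : ℕ → ℂ) : EReal :=
  Filter.limsup (fun r : ℝ =>
    ((Real.log (Real.log (maxModulus a r)) / Real.log r : ℝ) : EReal)) Filter.atTop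

/-- The width conjecture of Saff and Varga: if `ρ > 0`, `K > 0` and no partial sum `S_n`,
`n = 1, 2, 3, …`, has a zero in `S_{ρ,K}`, then the series is entire of order at most `ρ`. -/
def WidthConjecture : Prop :=
  ∀ ρ K : ℝ, 0 < ρ → 0 < K → ∀ a : ℕ → ℂ,
    (∀ n : ℕ, 1 ≤ n → ∀ z ∈ region ρ K, partialSum a n z ≠ 0) →
      IsEntire a ∧ order a ≤ (ρ : EReal)

/-- The width conjecture is false (already for `ρ = 2`, `K = 1/2`, the half-strip). -/
theorem result : ¬ WidthConjecture := by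
  intro h
  obtain ⟨a, h1, h2⟩ := Width.exists_counterexample
  have h3 := h 2 (1/2) (by norm_num) (by norm_num) a (by
    intro n hn z hz
    obtain ⟨hz1, hz2⟩ := hz
    have h4 : (1 - (2:ℝ) / 2) = 0 := by norm_num
    rw [h4, Real.rpow_zero, mul_one] at hz2
    exact h1 n hn z hz1.le hz2.le)
  have h5 : ((2 + 1/200 : ℝ) : EReal) ≤ order a := h2 h3.1
  have h6 : ((2 + 1/200 : ℝ) : EReal) ≤ ((2 : ℝ) : EReal) := h5.trans h3.2
  rw [EReal.coe_le_coe_iff] at h6
  norm_num at h6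

end Pool.Agent.Results.MP_df6699_an.Disproof
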