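import Mathlib
import Pool.Agent.Helper118.Width.Main3

set_option autoImplicit false

namespace Pool.Agent.Results.MP_df6699_an.DisproofGeneral

open Finset

/-- The region `S_{ρ,K} = {x + i y : x > 0, |y| < K x^{1-ρ/2}}`. -/
def region (ρ K : ℝ) : Set ℂ := {z | 0 < z.re ∧ |z.im| < K * z.re ^ (1 - ρ / 2)}

/-- The `n`-th partial sum `S_n(z) = ∑_{k=0}^n a_k z^k`. -/
noncomputable def partialSum (a : ℕ → ℂ) (n : ℕ) (z : ℂ) : ℂ := ∑ k ∈ range (n + 1), a k * z ^ k

/-- The power series `∑ a_k z^k` is entire: it converges at every `z`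
(infinite radius of convergence). -/
def IsEntire (a : ℕ → ℂ) : Prop := ∀ z : ℂ, Summable (fun k => a k * z ^ k)

/-- `M(r, f) = max_{|z| = r} |f(z)|` for `f(z) = ∑ a_k z^k`. -/
noncomputable def maxModulus (a : ℕ → ℂ) (r : ℝ) : ℝ :=
  sSup ((fun z : ℂ => ‖∑' k, a k * z ^ k‖) '' Metric.sphere 0 r)

/-- The order `limsup_{r → ∞} log log M(r, f) / log r`. -/
noncomputable def order (a : ℕ → ℂ) : EReal :=
  Filter.limsup (fun r : ℝ =>
    ((Real.log (Real.log (maxModulus a r)) / Real.log r : ℝ) : EReal)) Filter.atTop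

/-- The width conjecture of Saff and Varga fails for every `0 < ρ ≤ 4` and every `K > 0`:
there is an entire function `∑ a_k z^k` of order `> ρ` none of whose partial sums
`S_n`, `n = 1, 2, 3, …`, has a zero in `S_{ρ,K}`. -/
theorem result (ρ K : ℝ) (hρ : 0 < ρ) (hρ4 : ρ ≤ 4) (hK : 0 < K) :
    ∃ a : ℕ → ℂ, (∀ n : ℕ, 1 ≤ n → ∀ z ∈ region ρ K, partialSum a n z ≠ 0) ∧
      IsEntire a ∧ (ρ : EReal) < order a := by
  obtain ⟨a, h1, h2, h3⟩ := Width.exists_counterexample3 ρ K hρ hρ4 hK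
  refine ⟨a, ?_, h2, ?_⟩
  · intro n hn z hz
    exact h1 n hn z hz.1 hz.2
  · have h4 : ((ρ * (1 + 1/600) : ℝ) : EReal) ≤ order a := h3
    refine lt_of_lt_of_le ?_ h4
    rw [EReal.coe_lt_coe_iff]
    nlinarith

end Pool.Agent.Results.MP_df6699_an.DisproofGeneral
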