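import Pool.Agent.Helper217.Width.Main

/-!
The width conjecture holds for power series with real coefficients.
-/

set_option autoImplicit false

open Metric Set Complex Finset

namespace Pool.Agent.Results.MP_df6699_an.RealCoefficients

open Pool.Agent.Helper217.Width

/-- a real polynomial with positive constant term and negative leading coefficient has a positive
zero -/
theorem exists_zero {d : ℕ} (hd : 1 ≤ d) (e : ℕ → ℝ) (h0 : 0 < e 0) (hneg : e d < 0) :
    ∃ x : ℝ, 0 < x ∧ ∑ k ∈ Finset.range (d + 1), e k * x ^ k = 0 := by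
  set q : ℝ → ℝ := fun x => ∑ k ∈ Finset.range (d + 1), e k * x ^ k with hq
  have hcont : Continuous q := by
    simp only [hq]
    fun_prop
  have hq0 : q 0 = e 0 := by
    simp only [hq]
    rw [Finset.sum_range_succ', Finset.sum_eq_zero]
    · simp
    · intro k _
      simp
  set T : ℝ := ∑ k ∈ Finset.range d, |e k| with hT
  have hT0 : 0 ≤ T := Finset.sum_nonneg fun k _ => abs_nonneg _
  set x₁ : ℝ := 1 + T / (-e d) with hx₁
  have hed : 0 < -e d := by linarith
  have hx1 : 1 ≤ x₁ := by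
    have : 0 ≤ T / (-e d) := by positivity
    linarith
  have hx0 : 0 < x₁ := by linarith
  have hqx : q x₁ < 0 := by
    obtain ⟨j, rfl⟩ := Nat.exists_eq_add_of_le' hd
    simp only [hq]
    rw [Finset.sum_range_succ]
    have h1 : ∑ k ∈ Finset.range (j + 1), e k * x₁ ^ k ≤ T * x₁ ^ j := by
      rw [hT, Finset.sum_mul]
      apply Finset.sum_le_sum
      intro k hk
      have hk' : k ≤ j := Nat.lt_succ_iff.1 (Finset.mem_range.1 hk)
      calc e k * x₁ ^ k ≤ |e k| * x₁ ^ k :=
            mul_le_mul_of_nonneg_right (le_abs_self _) (by positivity)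
        _ ≤ |e k| * x₁ ^ j :=
            mul_le_mul_of_nonneg_left (pow_le_pow_right₀ hx1 hk') (abs_nonneg _)
    have h2 : e (j + 1) * x₁ ^ (j + 1) = (e (j + 1) * x₁) * x₁ ^ j := by ring
    have h3 : e (j + 1) * x₁ = e (j + 1) - T := by
      have h5 : e (j + 1) ≠ 0 := hneg.ne
      rw [hx₁, mul_add, mul_one, div_neg, mul_neg, mul_div_cancel₀ _ h5]
      ring
    rw [h2, h3]
    have h4 : 0 < x₁ ^ j := by positivity
    nlinarith
  obtain ⟨x, hx, hqx0⟩ := intermediate_value_Icc' hx0.le hcont.continuousOn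
    (show (0:ℝ) ∈ Set.Icc (q x₁) (q 0) from ⟨hqx.le, by rw [hq0]; exact h0.le⟩)
  refine ⟨x, lt_of_le_of_ne hx.1 ?_, hqx0⟩
  intro h
  rw [← h, hq0] at hqx0
  exact h0.ne' hqx0

/-- the sections have no cancellation on the positive axis -/
theorem no_cancellation {ρ K : ℝ} (hK : 0 < K) (a : ℕ → ℝ)
    (hzf : ∀ n ≥ 1, ∀ z ∈ region ρ K, partialSum (fun k => (a k : ℂ)) n z ≠ 0) :
    ∀ n ≥ 1, ∀ x : ℝ, 0 < x → ∑ k ∈ Finset.range (n + 1), ‖(a k : ℂ)‖ * x ^ k ≤
      ‖partialSum (fun k => (a k : ℂ)) n x‖ := by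
  have hreg1 : ∀ x : ℝ, 0 < x → (x : ℂ) ∈ region ρ K := by
    intro x hx
    refine ⟨by simpa using hx, ?_⟩
    simp only [Complex.ofReal_im, abs_zero, Complex.ofReal_re]
    exact mul_pos hK (Real.rpow_pos_of_pos hx _)
  have hreal : ∀ n (x : ℝ), partialSum (fun k => (a k : ℂ)) n x =
      ((∑ k ∈ Finset.range (n + 1), a k * x ^ k : ℝ) : ℂ) := by
    intro n x
    unfold partialSum
    push_cast
    rfl
  have hne : ∀ n ≥ 1, ∀ x : ℝ, 0 < x → ∑ k ∈ Finset.range (n + 1), a k * x ^ k ≠ 0 := by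
    intro n hn x hx h
    apply hzf n hn x (hreg1 x hx)
    rw [hreal, h, Complex.ofReal_zero]
  obtain ⟨m, hm1, ham, hlow⟩ : ∃ m : ℕ, m ≤ 1 ∧ a m ≠ 0 ∧ ∀ k < m, a k = 0 := by
    by_cases h0 : a 0 = 0
    · refine ⟨1, le_rfl, ?_, ?_⟩
      · intro h1
        apply hne 1 le_rfl 1 one_pos
        rw [Finset.sum_range_succ, Finset.sum_range_one, h0, h1]
        simp
      · intro k hk
        have : k = 0 := by omega
        rw [this, h0]
    · exact ⟨0, by omega, h0, by intro k hk; omega⟩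
  have hsign : ∀ k, 0 ≤ a m * a k := by
    intro k
    rcases Nat.lt_or_ge k m with hkm | hkm
    · rw [hlow k hkm, mul_zero]
    obtain ⟨d, rfl⟩ := Nat.exists_eq_add_of_le hkm
    rcases Nat.eq_zero_or_pos d with rfl | hd
    · rw [Nat.add_zero]
      exact mul_self_nonneg _
    by_contra hcon
    push Not at hcon
    obtain ⟨x, hx, hx0⟩ := exists_zero hd (fun j => a m * a (m + j))
      (by simpa using mul_self_pos.2 ham) hcon
    apply hne (m + d) (by omega) x hx
    have h1 : ∑ k ∈ Finset.range (m + d + 1), a k * x ^ k =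
        x ^ m * ∑ k ∈ Finset.range (d + 1), a (m + k) * x ^ k := by
      rw [show m + d + 1 = m + (d + 1) by ring, Finset.sum_range_add,
        Finset.sum_eq_zero (s := Finset.range m) (fun k hk => by
          rw [hlow k (Finset.mem_range.1 hk), zero_mul]), zero_add, Finset.mul_sum]
      apply Finset.sum_congr rfl
      intro k _
      rw [pow_add]
      ring
    have h2 : a m * ∑ k ∈ Finset.range (d + 1), a (m + k) * x ^ k = 0 := by
      rw [Finset.mul_sum, ← hx0]
      apply Finset.sum_congr rfl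
      intro k _
      ring
    have h3 : ∑ k ∈ Finset.range (d + 1), a (m + k) * x ^ k = 0 :=
      (mul_eq_zero.1 h2).resolve_left ham
    rw [h1, h3, mul_zero]
  intro n hn x hx
  rw [hreal, Complex.norm_real, Real.norm_eq_abs]
  have ham' : 0 < |a m| := abs_pos.2 ham
  have h1 : |a m| * ∑ k ∈ Finset.range (n + 1), ‖(a k : ℂ)‖ * x ^ k =
      a m * ∑ k ∈ Finset.range (n + 1), a k * x ^ k := by
    rw [Finset.mul_sum, Finset.mul_sum]
    apply Finset.sum_congr rfl
    intro k _
    rw [Complex.norm_real, Real.norm_eq_abs, ← mul_assoc, ← abs_mul, abs_of_nonneg (hsign k)]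
    ring
  have h2 : |a m| * ∑ k ∈ Finset.range (n + 1), ‖(a k : ℂ)‖ * x ^ k ≤
      |a m| * |∑ k ∈ Finset.range (n + 1), a k * x ^ k| := by
    rw [h1, ← abs_mul]
    exact le_abs_self _
  exact le_of_mul_le_mul_left h2 ham'

/-- **The width conjecture for real coefficients.** -/
theorem result (ρ K : ℝ) (hρ : 0 < ρ) (hK : 0 < K) (a : ℕ → ℝ)
    (hzf : ∀ n ≥ 1, ∀ z ∈ region ρ K, partialSum (fun k => (a k : ℂ)) n z ≠ 0) :
    (∀ z : ℂ, Summable fun k => (a k : ℂ) * z ^ k) ∧
      order (fun z => ∑' k, (a k : ℂ) * z ^ k) ≤ (ρ : EReal) := by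
  have h := main (α := 0) (C := 0) hρ hK le_rfl one_pos (fun k => (a k : ℂ)) hzf (by
    intro n hn x hx
    rw [zero_mul, Real.exp_zero, one_mul]
    exact no_cancellation hK a hzf n hn x hx)
  rwa [sub_zero, div_one] at h

end Pool.Agent.Results.MP_df6699_an.RealCoefficients
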