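import Pool.Agent.Helper217.WD.Burst
import Pool.Agent.Helper217.WD.OrderLower

/-!
The width conjecture of Saff and Varga is false (for complex coefficients).
-/

set_option autoImplicit false

namespace Pool.Agent.Results.MP_df6699_an.WidthConjectureFalse

open Pool.Agent.Helper217.Width

/-- **Disproof of the width conjecture.** The proof gives `ρ = 2`, `K = 1` and order at least
`2 + 1/2000` (if the series converges everywhere). -/
theorem result :
    ∃ (ρ K : ℝ) (a : ℕ → ℂ), 0 < ρ ∧ 0 < K ∧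
      (∀ n ≥ 1, ∀ z ∈ region ρ K, partialSum a n z ≠ 0) ∧
      ¬ ((∀ z : ℂ, Summable fun k => a k * z ^ k) ∧
        order (fun z => ∑' k, a k * z ^ k) ≤ ((ρ : ℝ) : EReal)) := by
  obtain ⟨a, h1, h2⟩ := Pool.Agent.Helper217.WD.exists_series
  refine ⟨2, 1, a, by norm_num, by norm_num, ?_, ?_⟩
  · intro n _ z hz
    apply h1 n z
    obtain ⟨h3, h4⟩ := hz
    refine ⟨h3.le, ?_⟩
    rw [show (1 : ℝ) - 2 / 2 = 0 by norm_num, Real.rpow_zero, mul_one] at h4
    exact h4.le
  · rintro ⟨h3, h4⟩
    have h5 := (Pool.Agent.Helper217.WD.order_ge a h3 _ (by norm_num) h2).trans h4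
    have h6 : (2 + 1 / 2000 : ℝ) ≤ 2 := by exact_mod_cast h5
    norm_num at h6

end Pool.Agent.Results.MP_df6699_an.WidthConjectureFalse
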